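import Pool.Agent.W636.OGpReal
import Pool.Agent.Helper292.ForceCH

/-!
`S₁(Ω, Ω)` and `S₁(Ω, O^{ω-gp})`: the two classes of sets of reals differ under the continuum
hypothesis (which can be forced) and coincide under Borel's Conjecture.
-/

namespace Pool.Agent.Results.MP_ef066b_gt.DistinctClasses

open Pool.Agent.Helper185.Sel Pool.Agent.W636.OGp

/-- (1) The continuum hypothesis can be forced, with `ω₁` preserved.  (2) Under the continuum
hypothesis some set of reals satisfies `S₁(Ω, O^{ω-gp})` but not `S₁(Ω, Ω)`.  (3) If every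
strong measure zero set of reals is countable (Borel's Conjecture) then the two properties are
equivalent for all sets of reals. -/
theorem result :
    (∃ (P : Type) (_ : Preorder P), Nonempty P ∧ ∀ p : P,
      p ∈ Pool.Agent.Helper292.ForceCH.OmegaOnePreserved P ∧
      p ∈ Pool.Agent.Helper292.ForceCH.CHHolds P) ∧
    (Cardinal.aleph 1 = Cardinal.continuum.{0} →
      ∃ X : Set ℝ, S1 (OmegaOf (OpenFam X)) (OmegaGp X) ∧
        ¬ S1 (OmegaOf (OpenFam X)) (OmegaOf (OpenFam X))) ∧
    ((∀ Z : Set ℝ, StrongNull Z → Z.Countable) →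
      ∀ X : Set ℝ, S1 (OmegaOf (OpenFam X)) (OmegaOf (OpenFam X)) ↔
        S1 (OmegaOf (OpenFam X)) (OmegaGp X)) := by
  refine ⟨?_, fun hCH => exists_real hCH, fun hBC X => iff_of_borel hBC X⟩
  obtain ⟨P, i, h1, h2⟩ := Pool.Agent.Helper292.ForceCH.exists_forcing
  exact ⟨P, i, h1, fun p => ⟨(h2 p).1, (h2 p).2.2⟩⟩

end Pool.Agent.Results.MP_ef066b_gt.DistinctClasses
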